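import Pool.Agent.W670.LL.Stm

/-!
# Project LL, part P1: the exact parallelogram law for the degree on the generic group
-/

set_option autoImplicit false

open Polynomial WeierstrassCurve

namespace Pool.Agent.W570.LL

open Pool.Agent.W670.LL

section poly
variable {k : Type} [Field k]

/-- no common zero in any field -/
def Nz2 (f g : k[X]) : Prop :=
  ∀ (K : Type) [Field K] (φ : k[X] →+* K), ¬ (φ f = 0 ∧ φ g = 0)

/-- no common zero in any field -/
def Nz3 (a b c : k[X]) : Prop :=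
  ∀ (K : Type) [Field K] (φ : k[X] →+* K), ¬ (φ a = 0 ∧ φ b = 0 ∧ φ c = 0)

lemma nz2 {f g : k[X]} (h : IsCoprime f g) : Nz2 f g := by
  intro K _ φ ⟨h1, h2⟩
  obtain ⟨a, b, hab⟩ := h
  have := congrArg φ hab
  simp [h1, h2] at this

lemma bez {a b c : k[X]} (h : Nz3 a b c) : ∃ x y z, x * a + y * b + z * c = 1 := by
  by_contra hne
  have hI : Ideal.span {a, b, c} ≠ (⊤ : Ideal k[X]) := by
    intro hT
    have h1 : (1 : k[X]) ∈ Ideal.span {a, b, c} := hT ▸ Submodule.mem_top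
    rw [Ideal.mem_span_insert] at h1
    obtain ⟨x, z, hz, hx⟩ := h1
    rw [Ideal.mem_span_pair] at hz
    obtain ⟨y, z', hyz⟩ := hz
    exact hne ⟨x, y, z', by rw [hx, ← hyz]; ring⟩
  obtain ⟨m, hm, hle⟩ := Ideal.exists_le_maximal _ hI
  letI := Ideal.Quotient.field m
  refine h (k[X] ⧸ m) (Ideal.Quotient.mk m) ⟨?_, ?_, ?_⟩ <;>
    rw [Ideal.Quotient.eq_zero_iff_mem] <;> apply hle <;> apply Ideal.subset_span <;> simp

/-- exact degree of a pair -/
def Deg2 (f g : k[X]) (d : ℕ) : Prop :=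
  f.natDegree ≤ d ∧ g.natDegree ≤ d ∧ ¬ (f.coeff d = 0 ∧ g.coeff d = 0)

/-- exact degree of a triple -/
def Deg3 (a b c : k[X]) (d : ℕ) : Prop :=
  a.natDegree ≤ d ∧ b.natDegree ≤ d ∧ c.natDegree ≤ d ∧
    ¬ (a.coeff d = 0 ∧ b.coeff d = 0 ∧ c.coeff d = 0)

lemma deg2 {f g : k[X]} (h : IsCoprime f g) : Deg2 f g (max f.natDegree g.natDegree) := by
  refine ⟨le_max_left _ _, le_max_right _ _, ?_⟩
  rintro ⟨h1, h2⟩
  have h0 : f = 0 ∧ g = 0 := by
    rcases le_total f.natDegree g.natDegree with hle | hle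
    · rw [max_eq_right hle] at h1 h2
      have hg : g = 0 := by
        rw [← leadingCoeff_eq_zero]; exact h2
      subst hg
      rw [natDegree_zero] at hle h1
      have : f.natDegree = 0 := le_antisymm hle (Nat.zero_le _)
      refine ⟨?_, rfl⟩
      rw [← leadingCoeff_eq_zero, leadingCoeff, this]
      exact h1
    · rw [max_eq_left hle] at h1 h2
      have hf : f = 0 := by
        rw [← leadingCoeff_eq_zero]; exact h1
      subst hf
      rw [natDegree_zero] at hle h2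
      have : g.natDegree = 0 := le_antisymm hle (Nat.zero_le _)
      refine ⟨rfl, ?_⟩
      rw [← leadingCoeff_eq_zero, leadingCoeff, this]
      exact h2
  rw [h0.1, h0.2] at h
  exact not_isCoprime_zero_zero h

lemma deg3_uniq {a b c : k[X]} {d d' : ℕ} (h : Deg3 a b c d) (h' : Deg3 a b c d') : d = d' := by
  have key : ∀ {d d' : ℕ}, Deg3 a b c d → Deg3 a b c d' → d' ≤ d := by
    intro d d' h h'
    by_contra hlt
    push Not at hlt
    apply h'.2.2.2
    exact ⟨coeff_eq_zero_of_natDegree_lt (lt_of_le_of_lt h.1 hlt),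
      coeff_eq_zero_of_natDegree_lt (lt_of_le_of_lt h.2.1 hlt),
      coeff_eq_zero_of_natDegree_lt (lt_of_le_of_lt h.2.2.1 hlt)⟩
  exact le_antisymm (key h' h) (key h h')

lemma pair_dom {R : Type} [CommRing R] [IsDomain R] {f g f' g' : R} (h1 : f * f' = 0)
    (h2 : f * g' + f' * g = 0) (h3 : g * g' = 0) : (f = 0 ∧ g = 0) ∨ (f' = 0 ∧ g' = 0) := by
  by_cases hf : f = 0
  · subst hf
    by_cases hg : g = 0
    · exact Or.inl ⟨rfl, hg⟩
    · right
      constructor
      · have : f' * g = 0 := by linear_combination h2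
        exact (mul_eq_zero.1 this).resolve_right hg
      · exact (mul_eq_zero.1 h3).resolve_left hg
  · have hf' : f' = 0 := (mul_eq_zero.1 h1).resolve_left hf
    subst hf'
    right
    refine ⟨rfl, ?_⟩
    have : f * g' = 0 := by linear_combination h2
    exact (mul_eq_zero.1 this).resolve_left hf

lemma nz_mul {f g f' g' : k[X]} (h : Nz2 f g) (h' : Nz2 f' g') :
    Nz3 (f * f') (f * g' + f' * g) (g * g') := by
  intro K _ φ ⟨h1, h2, h3⟩
  simp only [map_mul, map_add] at h1 h2 h3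
  rcases pair_dom h1 h2 h3 with h4 | h4
  · exact h K φ h4
  · exact h' K φ h4

lemma deg_mul {f g f' g' : k[X]} {d d' : ℕ} (h : Deg2 f g d) (h' : Deg2 f' g' d') :
    Deg3 (f * f') (f * g' + f' * g) (g * g') (d + d') := by
  obtain ⟨h1, h2, h3⟩ := h
  obtain ⟨h1', h2', h3'⟩ := h'
  refine ⟨natDegree_mul_le_of_le h1 h1', ?_, natDegree_mul_le_of_le h2 h2', ?_⟩
  · refine natDegree_add_le_of_degree_le (natDegree_mul_le_of_le h1 h2') ?_
    rw [add_comm d d']
    exact natDegree_mul_le_of_le h1' h2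
  · rintro ⟨e1, e2, e3⟩
    rw [coeff_mul_add_eq_of_natDegree_le h1 h1'] at e1
    rw [coeff_mul_add_eq_of_natDegree_le h2 h2'] at e3
    rw [coeff_add, coeff_mul_add_eq_of_natDegree_le h1 h2', add_comm d d',
      coeff_mul_add_eq_of_natDegree_le h1' h2] at e2
    rcases pair_dom e1 e2 e3 with h4 | h4
    · exact h3 h4
    · exact h3' h4

/-- the addition-subtraction map -/
lemma F_dom {R : Type} [CommRing R] [IsDomain R] (h2 : (2 : R) ≠ 0) (h3 : (3 : R) ≠ 0) {s t u : R}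
    (e1 : (s + 3 * u) * (s + 3 * u) = 0) (e2 : 2 * ((s - 3 * u) * t) + 24 * (s * u) = 0)
    (e3 : t * t - 4 * (s * u) = 0) : s = 0 ∧ t = 0 ∧ u = 0 := by
  have hs : s = -3 * u := by
    have : s + 3 * u = 0 := by simpa using e1
    linear_combination this
  subst hs
  have hu : u = 0 := by
    have h4 : (2 * 2 * 3) * (u * (t + 6 * u)) = 0 := by linear_combination -e2
    have h5 : u * (t + 6 * u) = 0 := by
      rcases mul_eq_zero.1 h4 with h | h
      · exact absurd h (mul_ne_zero (mul_ne_zero h2 h2) h3)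
      · exact h
    rcases mul_eq_zero.1 h5 with h | h
    · exact h
    · have ht : t = -6 * u := by linear_combination h
      subst ht
      have h6 : (2 * 2 * 2 * 2 * 3) * (u * u) = 0 := by linear_combination e3
      rcases mul_eq_zero.1 h6 with h | h
      · exact absurd h (mul_ne_zero (mul_ne_zero (mul_ne_zero (mul_ne_zero h2 h2) h2) h2) h3)
      · simpa using h
  subst hu
  refine ⟨by ring, ?_, rfl⟩
  have : t * t = 0 := by linear_combination e3
  simpa using this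

lemma ne_map {K : Type} [Field K] (φ : k[X] →+* K) {n : ℕ} (h : (n : k) ≠ 0) : (n : K) ≠ 0 := by
  have h1 : ((φ.comp C) : k →+* K) (n : k) = (n : K) := map_natCast _ n
  rw [← h1]
  exact (map_ne_zero_iff _ (RingHom.injective _)).2 h

lemma F_nz (h2 : (2 : k) ≠ 0) (h3 : (3 : k) ≠ 0) {s t u : k[X]} (h : Nz3 s t u) :
    Nz3 ((s + 3 * u) * (s + 3 * u)) (2 * ((s - 3 * u) * t) + 24 * (s * u))
      (t * t - 4 * (s * u)) := by
  intro K _ φ ⟨e1, e2, e3⟩
  simp only [map_mul, map_add, map_sub, map_ofNat] at e1 e2 e3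
  have k2 : (2 : K) ≠ 0 := by exact_mod_cast ne_map φ (n := 2) (by exact_mod_cast h2)
  have k3 : (3 : K) ≠ 0 := by exact_mod_cast ne_map φ (n := 3) (by exact_mod_cast h3)
  exact h K φ (F_dom k2 k3 e1 e2 e3)

lemma F_deg (h2 : (2 : k) ≠ 0) (h3 : (3 : k) ≠ 0) {s t u : k[X]} {d : ℕ} (h : Deg3 s t u d) :
    Deg3 ((s + 3 * u) * (s + 3 * u)) (2 * ((s - 3 * u) * t) + 24 * (s * u))
      (t * t - 4 * (s * u)) (d + d) := by
  obtain ⟨a1, a2, a3, a4⟩ := h
  have c3 : ∀ (n : ℕ) (p : k[X]) (e : ℕ), p.natDegree ≤ e → ((n : k[X]) * p).natDegree ≤ e := by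
    intro n p e he
    rw [← C_eq_natCast]
    exact (natDegree_C_mul_le _ _).trans he
  have c4 : ∀ (n : ℕ) (p : k[X]) (e : ℕ), ((n : k[X]) * p).coeff e = n * p.coeff e := by
    intro n p e
    rw [← C_eq_natCast, coeff_C_mul]
  have q1 : ∀ p : k[X], (3 : k[X]) * p = ((3 : ℕ) : k[X]) * p := fun p => by norm_cast
  have q2 : ∀ p : k[X], (2 : k[X]) * p = ((2 : ℕ) : k[X]) * p := fun p => by norm_cast
  have q3 : ∀ p : k[X], (24 : k[X]) * p = ((24 : ℕ) : k[X]) * p := fun p => by norm_cast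
  have q4 : ∀ p : k[X], (4 : k[X]) * p = ((4 : ℕ) : k[X]) * p := fun p => by norm_cast
  have b1 : (s + 3 * u).natDegree ≤ d := natDegree_add_le_of_degree_le a1 (by
    rw [q1]; exact c3 _ _ _ a3)
  have b2 : (s - 3 * u).natDegree ≤ d := (natDegree_sub_le _ _).trans (max_le a1 (by
    rw [q1]; exact c3 _ _ _ a3))
  refine ⟨natDegree_mul_le_of_le b1 b1, ?_, ?_, ?_⟩
  · refine natDegree_add_le_of_degree_le ?_ ?_
    · rw [q2]; exact c3 _ _ _ (natDegree_mul_le_of_le b2 a2)
    · rw [q3]; exact c3 _ _ _ (natDegree_mul_le_of_le a1 a3)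
  · refine (natDegree_sub_le _ _).trans (max_le (natDegree_mul_le_of_le a2 a2) ?_)
    rw [q4]; exact c3 _ _ _ (natDegree_mul_le_of_le a1 a3)
  · rintro ⟨e1, e2, e3⟩
    rw [coeff_mul_add_eq_of_natDegree_le b1 b1, coeff_add, q1, c4] at e1
    rw [coeff_add, q2, c4, coeff_mul_add_eq_of_natDegree_le b2 a2, coeff_sub, q1, c4, q3, c4,
      coeff_mul_add_eq_of_natDegree_le a1 a3] at e2
    rw [coeff_sub, coeff_mul_add_eq_of_natDegree_le a2 a2, q4, c4, coeff_mul_add_eq_of_natDegree_le a1 a3] at e3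
    push_cast at e1 e2 e3
    exact a4 (F_dom h2 h3 e1 e2 e3)

lemma prop {a b c a' b' c' : k[X]} (h : Nz3 a b c) (h' : Nz3 a' b' c') (e1 : a * b' = a' * b)
    (e2 : a * c' = a' * c) (e3 : b * c' = b' * c) {d : ℕ} (hd : Deg3 a b c d) :
    Deg3 a' b' c' d := by
  obtain ⟨x, y, z, hx⟩ := bez h
  set w : k[X] := x * a' + y * b' + z * c' with hw
  have ha : a' = a * w := by
    rw [hw]; linear_combination (-a') * hx + y * e1 - y * e1 + z * e2 - z * e2 - y * e1 - z * e2
  have hb : b' = b * w := by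
    rw [hw]; linear_combination (-b') * hx + x * e1 - z * e3
  have hc : c' = c * w := by
    rw [hw]; linear_combination (-c') * hx + x * e2 + y * e3
  have hu : IsUnit w := by
    obtain ⟨x', y', z', hx'⟩ := bez h'
    refine IsUnit.of_mul_eq_one (x' * a + y' * b + z' * c) ?_
    rw [ha, hb, hc] at hx'
    linear_combination hx'
  obtain ⟨r, hr, hrw⟩ := Polynomial.isUnit_iff.1 hu
  have hr0 : r ≠ 0 := hr.ne_zero
  obtain ⟨a1, a2, a3, a4⟩ := hd
  have hdeg : ∀ p : k[X], p.natDegree ≤ d → (p * w).natDegree ≤ d := by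
    intro p hp
    rw [← hrw]
    exact (natDegree_mul_C_le _ _).trans hp
  refine ⟨by rw [ha]; exact hdeg _ a1, by rw [hb]; exact hdeg _ a2, by rw [hc]; exact hdeg _ a3, ?_⟩
  rw [ha, hb, hc, ← hrw, coeff_mul_C, coeff_mul_C, coeff_mul_C]
  rintro ⟨e1, e2, e3⟩
  exact a4 ⟨(mul_eq_zero.1 e1).resolve_right hr0, (mul_eq_zero.1 e2).resolve_right hr0,
    (mul_eq_zero.1 e3).resolve_right hr0⟩

end poly

end Pool.Agent.W570.LL
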