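import Pool.Agent.W570.LL.P1

/-!
# Project LL, part P1: the exact parallelogram law for the degree on the generic group (geometry)
-/

set_option autoImplicit false

open Polynomial WeierstrassCurve

namespace Pool.Agent.W570.LL

open Pool.Agent.W670.LL

section geo
variable {k : Type} [Field k]

lemma lam_ne : lam k ≠ 0 := by
  have h1 : lam k = algebraMap k[X] (RatFunc k) (X ^ 3 + 6 * X ^ 2 - 3 * X) := by
    simp only [lam, map_add, map_sub, map_mul, map_pow, map_ofNat, RatFunc.algebraMap_X]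
  rw [h1]
  intro h
  have h2 : (X ^ 3 + 6 * X ^ 2 - 3 * X : k[X]) = 0 :=
    (map_eq_zero_iff _ (RatFunc.algebraMap_injective k)).1 h
  have h3 := congrArg (fun p : k[X] => p.coeff 3) h2
  simp [coeff_X, coeff_X_pow, coeff_ofNat_mul] at h3

lemma Hr_eq {r : RatFunc k} {f g : k[X]} (h : IsCoprime f g)
    (hr : r * algebraMap k[X] (RatFunc k) g = algebraMap k[X] (RatFunc k) f) :
    Hr r = max f.natDegree g.natDegree := by
  have hinj := RatFunc.algebraMap_injective k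
  have hd : algebraMap k[X] (RatFunc k) r.denom ≠ 0 :=
    (map_ne_zero_iff _ hinj).2 (RatFunc.denom_ne_zero r)
  have e : f * r.denom = r.num * g := by
    apply hinj
    rw [map_mul, map_mul, ← hr]
    have h1 := RatFunc.num_div_denom r
    rw [div_eq_iff hd] at h1
    rw [h1]
    ring
  have c := RatFunc.isCoprime_num_denom r
  have a1 : f ∣ r.num := h.dvd_of_dvd_mul_right ⟨r.denom, e.symm⟩
  have a2 : r.num ∣ f := c.dvd_of_dvd_mul_right ⟨g, e⟩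
  have b1 : g ∣ r.denom := h.symm.dvd_of_dvd_mul_left ⟨r.num, by rw [e]; ring⟩
  have b2 : r.denom ∣ g := c.symm.dvd_of_dvd_mul_left ⟨f, by rw [← e]; ring⟩
  have q1 := natDegree_eq_of_degree_eq (degree_eq_degree_of_associated (associated_of_dvd_dvd a1 a2))
  have q2 := natDegree_eq_of_degree_eq (degree_eq_degree_of_associated (associated_of_dvd_dvd b1 b2))
  unfold Hr
  rw [q1, q2]

/-- the abscissa of `R` is `f : g` -/
def Rep (R : Gp k) (f g : k[X]) : Prop :=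
  IsCoprime f g ∧ ((R = 0 ∧ g = 0) ∨ (g ≠ 0 ∧ ∃ x y h, R = Affine.Point.some x y h ∧
    x * algebraMap k[X] (RatFunc k) g = lam k * algebraMap k[X] (RatFunc k) f))

lemma rep_some {x y : RatFunc k} (h) :
    ∃ f g, IsCoprime f g ∧ g ≠ 0 ∧ Rep (Affine.Point.some x y h : Gp k) f g ∧
      x * algebraMap k[X] (RatFunc k) g = lam k * algebraMap k[X] (RatFunc k) f := by
  have hinj := RatFunc.algebraMap_injective k
  set r := x / lam k with hr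
  have hd : algebraMap k[X] (RatFunc k) r.denom ≠ 0 :=
    (map_ne_zero_iff _ hinj).2 (RatFunc.denom_ne_zero r)
  have h1 := RatFunc.num_div_denom r
  rw [div_eq_iff hd] at h1
  have h2 : x * algebraMap k[X] (RatFunc k) r.denom = lam k * algebraMap k[X] (RatFunc k) r.num := by
    rw [h1]
    have : x = lam k * r := by
      rw [hr, mul_div_cancel₀ _ lam_ne]
    rw [← mul_assoc, ← this]
  exact ⟨r.num, r.denom, RatFunc.isCoprime_num_denom r, RatFunc.denom_ne_zero r,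
    ⟨RatFunc.isCoprime_num_denom r, Or.inr ⟨RatFunc.denom_ne_zero r, x, y, h, rfl, h2⟩⟩, h2⟩

lemma HH_zero : HH (0 : Gp k) = 0 := rfl

lemma HH_some {x y : RatFunc k} (h) : HH (Affine.Point.some x y h : Gp k) = Hr (x / lam k) := rfl

lemma rep_zero : Rep (0 : Gp k) 1 0 := ⟨isCoprime_one_left, Or.inl ⟨rfl, rfl⟩⟩

lemma rep_deg {R : Gp k} {f g : k[X]} (h : Rep R f g) : Deg2 f g (HH R) := by
  obtain ⟨hc, ⟨h1, h2⟩ | ⟨hg, x, y, h', h1, h2⟩⟩ := h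
  · subst h1
    subst h2
    have hu : IsUnit f := isCoprime_zero_right.1 hc
    have h0 : f.natDegree = 0 := natDegree_eq_zero_of_isUnit hu
    have := deg2 hc
    rw [h0, natDegree_zero, max_self] at this
    rw [HH_zero]
    exact this
  · subst h1
    rw [HH_some, Hr_eq hc (r := x / lam k)]
    · exact deg2 hc
    · rw [div_mul_eq_mul_div, h2, mul_div_cancel_left₀ _ lam_ne]

/-- the conclusion from the proportionality of the triples -/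
lemma finish (h2 : (2 : k) ≠ 0) (h3 : (3 : k) ≠ 0) {R₁ R₂ R₃ R₄ : Gp k}
    {f₁ g₁ f₂ g₂ f₃ g₃ f₄ g₄ : k[X]} (q₁ : Rep R₁ f₁ g₁) (q₂ : Rep R₂ f₂ g₂) (q₃ : Rep R₃ f₃ g₃)
    (q₄ : Rep R₄ f₄ g₄)
    (e1 : f₃ * f₄ * (2 * ((f₁ * f₂ - 3 * (g₁ * g₂)) * (f₁ * g₂ + f₂ * g₁)) +
      24 * ((f₁ * f₂) * (g₁ * g₂))) =
      (f₁ * f₂ + 3 * (g₁ * g₂)) * (f₁ * f₂ + 3 * (g₁ * g₂)) * (f₃ * g₄ + f₄ * g₃))
    (e2 : f₃ * f₄ * ((f₁ * g₂ + f₂ * g₁) * (f₁ * g₂ + f₂ * g₁) - 4 * ((f₁ * f₂) * (g₁ * g₂))) =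
      (f₁ * f₂ + 3 * (g₁ * g₂)) * (f₁ * f₂ + 3 * (g₁ * g₂)) * (g₃ * g₄))
    (e3 : (f₃ * g₄ + f₄ * g₃) *
        ((f₁ * g₂ + f₂ * g₁) * (f₁ * g₂ + f₂ * g₁) - 4 * ((f₁ * f₂) * (g₁ * g₂))) =
      (2 * ((f₁ * f₂ - 3 * (g₁ * g₂)) * (f₁ * g₂ + f₂ * g₁)) + 24 * ((f₁ * f₂) * (g₁ * g₂))) *
        (g₃ * g₄)) :
    HH R₃ + HH R₄ = 2 * HH R₁ + 2 * HH R₂ := by
  have z := F_nz h2 h3 (nz_mul (nz2 q₁.1) (nz2 q₂.1))
  have z' := nz_mul (nz2 q₃.1) (nz2 q₄.1)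
  have d := F_deg h2 h3 (deg_mul (rep_deg q₁) (rep_deg q₂))
  have d' := deg_mul (rep_deg q₃) (rep_deg q₄)
  have := deg3_uniq (prop z' z e1 e2 e3 d') d
  omega

/-- addition and subtraction -/
lemma geo {K : Type} [Field K] {a b x₁ y₁ x₂ y₂ l l' x₃ x₄ : K}
    (h1 : y₁ ^ 2 = x₁ ^ 3 + a * x₁ ^ 2 + b * x₁) (h2 : y₂ ^ 2 = x₂ ^ 3 + a * x₂ ^ 2 + b * x₂)
    (hne : x₁ ≠ x₂) (hl : l * (x₁ - x₂) = y₁ - y₂) (hl' : l' * (x₁ - x₂) = y₁ + y₂)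
    (hx₃ : x₃ = l ^ 2 - a - x₁ - x₂) (hx₄ : x₄ = l' ^ 2 - a - x₁ - x₂) :
    x₃ * x₄ * (x₁ - x₂) ^ 2 = (x₁ * x₂ - b) ^ 2 ∧
      (x₃ + x₄) * (x₁ - x₂) ^ 2 = 2 * ((x₁ * x₂ + b) * (x₁ + x₂) + 2 * a * x₁ * x₂) := by
  have A3 : x₃ * (x₁ - x₂) ^ 2 = (x₁ * x₂ + b) * (x₁ + x₂) + 2 * a * x₁ * x₂ - 2 * y₁ * y₂ := by
    rw [hx₃]
    linear_combination (l * (x₁ - x₂) + (y₁ - y₂)) * hl + h1 + h2
  have A4 : x₄ * (x₁ - x₂) ^ 2 = (x₁ * x₂ + b) * (x₁ + x₂) + 2 * a * x₁ * x₂ + 2 * y₁ * y₂ := by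
    rw [hx₄]
    linear_combination (l' * (x₁ - x₂) + (y₁ + y₂)) * hl' + h1 + h2
  have hD : (x₁ - x₂) ^ 2 ≠ 0 := pow_ne_zero 2 (sub_ne_zero.2 hne)
  constructor
  · apply mul_right_cancel₀ hD
    have : x₃ * x₄ * (x₁ - x₂) ^ 2 * (x₁ - x₂) ^ 2 =
        (x₃ * (x₁ - x₂) ^ 2) * (x₄ * (x₁ - x₂) ^ 2) := by ring
    rw [this, A3, A4]
    linear_combination (-4 * y₂ ^ 2) * h1 - 4 * (x₁ ^ 3 + a * x₁ ^ 2 + b * x₁) * h2
  · linear_combination A3 + A4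

lemma case_ne [DecidableEq (RatFunc k)] (h2 : (2 : k) ≠ 0) (h3 : (3 : k) ≠ 0)
    {x₁ y₁ x₂ y₂ : RatFunc k} (h₁) (h₂) (hne : x₁ ≠ x₂) :
    HH ((Affine.Point.some x₁ y₁ h₁ : Gp k) + Affine.Point.some x₂ y₂ h₂) +
      HH ((Affine.Point.some x₁ y₁ h₁ : Gp k) - Affine.Point.some x₂ y₂ h₂) =
    2 * HH (Affine.Point.some x₁ y₁ h₁ : Gp k) + 2 * HH (Affine.Point.some x₂ y₂ h₂ : Gp k) := by
  have hinj := RatFunc.algebraMap_injective k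
  have hD : x₁ - x₂ ≠ 0 := sub_ne_zero.2 hne
  obtain ⟨h₂', hneg⟩ := neg_mk h₂
  obtain ⟨h₃, e₃⟩ := add_mk h₁ h₂ hne ((y₁ - y₂) / (x₁ - x₂)) _ _ (div_mul_cancel₀ _ hD) rfl rfl
  obtain ⟨h₄, e₄⟩ := add_mk h₁ h₂' hne ((y₁ - -y₂) / (x₁ - x₂)) _ _ (div_mul_cancel₀ _ hD) rfl rfl
  have E1 := eqn h₁
  have E2 := eqn h₂
  obtain ⟨G1, G2⟩ := geo E1 E2 hne (l := (y₁ - y₂) / (x₁ - x₂)) (l' := (y₁ - -y₂) / (x₁ - x₂))
    (div_mul_cancel₀ _ hD) (by rw [div_mul_cancel₀ _ hD]; ring) rfl rfl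
  rw [sub_eq_add_neg, hneg, e₃, e₄]
  obtain ⟨f₁, g₁, c₁, n₁, r₁, k₁⟩ := rep_some h₁
  obtain ⟨f₂, g₂, c₂, n₂, r₂, k₂⟩ := rep_some h₂
  obtain ⟨f₃, g₃, c₃, n₃, r₃, k₃⟩ := rep_some h₃
  obtain ⟨f₄, g₄, c₄, n₄, r₄, k₄⟩ := rep_some h₄
  generalize ((y₁ - y₂) / (x₁ - x₂)) ^ 2 - 6 * lam k - x₁ - x₂ = x₃ at *
  generalize ((y₁ - -y₂) / (x₁ - x₂)) ^ 2 - 6 * lam k - x₁ - x₂ = x₄ at *
  have hl := lam_ne (k := k)
  have key : ∀ {x : RatFunc k} {f g : k[X]}, g ≠ 0 →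
      x * algebraMap k[X] (RatFunc k) g = lam k * algebraMap k[X] (RatFunc k) f →
      ∃ X, x = lam k * X ∧ algebraMap k[X] (RatFunc k) f = X * algebraMap k[X] (RatFunc k) g := by
    intro x f g hg h
    refine ⟨x / lam k, (mul_div_cancel₀ _ hl).symm, ?_⟩
    rw [div_mul_eq_mul_div, h, mul_div_cancel_left₀ _ hl]
  obtain ⟨X₁, p₁, s₁⟩ := key n₁ k₁
  obtain ⟨X₂, p₂, s₂⟩ := key n₂ k₂
  obtain ⟨X₃, p₃, s₃⟩ := key n₃ k₃
  obtain ⟨X₄, p₄, s₄⟩ := key n₄ k₄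
  rw [p₁, p₂, p₃, p₄] at G1 G2
  rw [p₁, p₂] at hne
  have D1 : X₃ * X₄ * (X₁ - X₂) ^ 2 = (X₁ * X₂ + 3) ^ 2 := by
    apply mul_left_cancel₀ (pow_ne_zero 4 hl)
    linear_combination G1
  have D2 : (X₃ + X₄) * (X₁ - X₂) ^ 2 = 2 * ((X₁ * X₂ - 3) * (X₁ + X₂)) + 24 * (X₁ * X₂) := by
    apply mul_left_cancel₀ (pow_ne_zero 3 hl)
    linear_combination G2
  have D3 : X₃ * X₄ * (2 * ((X₁ * X₂ - 3) * (X₁ + X₂)) + 24 * (X₁ * X₂)) =
      (X₁ * X₂ + 3) ^ 2 * (X₃ + X₄) := by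
    linear_combination (-X₃ * X₄) * D2 + (X₃ + X₄) * D1
  refine finish h2 h3 r₁ r₂ r₃ r₄ ?_ ?_ ?_ <;> apply hinj <;>
    simp only [map_mul, map_add, map_sub, map_ofNat, s₁, s₂, s₃, s₄]
  · linear_combination (algebraMap k[X] (RatFunc k) g₁ ^ 2 * algebraMap k[X] (RatFunc k) g₂ ^ 2 *
      algebraMap k[X] (RatFunc k) g₃ * algebraMap k[X] (RatFunc k) g₄) * D3
  · linear_combination (algebraMap k[X] (RatFunc k) g₁ ^ 2 * algebraMap k[X] (RatFunc k) g₂ ^ 2 *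
      algebraMap k[X] (RatFunc k) g₃ * algebraMap k[X] (RatFunc k) g₄) * D1
  · linear_combination (algebraMap k[X] (RatFunc k) g₁ ^ 2 * algebraMap k[X] (RatFunc k) g₂ ^ 2 *
      algebraMap k[X] (RatFunc k) g₃ * algebraMap k[X] (RatFunc k) g₄) * D2

lemma case_dbl [DecidableEq (RatFunc k)] (h2 : (2 : k) ≠ 0) (h3 : (3 : k) ≠ 0)
    {x y : RatFunc k} (h) :
    HH ((Affine.Point.some x y h : Gp k) + Affine.Point.some x y h) =
    4 * HH (Affine.Point.some x y h : Gp k) := by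
  have hinj := RatFunc.algebraMap_injective k
  have E1 := eqn h
  obtain ⟨f₁, g₁, c₁, n₁, r₁, k₁⟩ := rep_some h
  have hl := lam_ne (k := k)
  have key : ∀ {x : RatFunc k} {f g : k[X]}, g ≠ 0 →
      x * algebraMap k[X] (RatFunc k) g = lam k * algebraMap k[X] (RatFunc k) f →
      ∃ X, x = lam k * X ∧ algebraMap k[X] (RatFunc k) f = X * algebraMap k[X] (RatFunc k) g := by
    intro x f g hg h
    refine ⟨x / lam k, (mul_div_cancel₀ _ hl).symm, ?_⟩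
    rw [div_mul_eq_mul_div, h, mul_div_cancel_left₀ _ hl]
  obtain ⟨X₁, p₁, s₁⟩ := key n₁ k₁
  by_cases hy : y = 0
  · subst hy
    rw [dbl_zero h]
    have D1 : X₁ * (X₁ ^ 2 + 6 * X₁ - 3) = 0 := by
      apply mul_left_cancel₀ (pow_ne_zero 3 hl)
      rw [p₁] at E1
      linear_combination -E1
    have := finish h2 h3 r₁ r₁ rep_zero rep_zero (by
      simp only [mul_zero, add_zero, mul_one, one_mul]
      apply hinj
      simp only [map_mul, map_add, map_sub, map_ofNat, map_zero, s₁]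
      linear_combination (4 * algebraMap k[X] (RatFunc k) g₁ ^ 4) * D1) (by ring) (by ring)
    rw [HH_zero] at this ⊢
    omega
  · have h2' : (2 : RatFunc k) ≠ 0 := by
      have := (map_ne_zero_iff (algebraMap k (RatFunc k)) (RingHom.injective _)).2 h2
      rwa [map_ofNat] at this
    have h2y : 2 * y ≠ 0 := mul_ne_zero h2' hy
    obtain ⟨h₃, e₃⟩ := dbl_mk h h2' hy ((3 * x ^ 2 + 2 * (6 * lam k) * x + -3 * lam k ^ 2) / (2 * y))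
      _ _ (div_mul_cancel₀ _ h2y) rfl rfl
    rw [e₃]
    have G : (((3 * x ^ 2 + 2 * (6 * lam k) * x + -3 * lam k ^ 2) / (2 * y)) ^ 2 - 6 * lam k -
        2 * x) * (4 * (x ^ 3 + 6 * lam k * x ^ 2 + -3 * lam k ^ 2 * x)) =
        (x ^ 2 + 3 * lam k ^ 2) ^ 2 := by
      have hL := div_mul_cancel₀ (3 * x ^ 2 + 2 * (6 * lam k) * x + -3 * lam k ^ 2) h2y
      generalize (3 * x ^ 2 + 2 * (6 * lam k) * x + -3 * lam k ^ 2) / (2 * y) = l at hL ⊢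
      linear_combination (l * (2 * y) + (3 * x ^ 2 + 2 * (6 * lam k) * x + -3 * lam k ^ 2)) * hL -
        4 * l ^ 2 * E1
    obtain ⟨f₃, g₃, c₃, n₃, r₃, k₃⟩ := rep_some h₃
    generalize ((3 * x ^ 2 + 2 * (6 * lam k) * x + -3 * lam k ^ 2) / (2 * y)) ^ 2 - 6 * lam k -
      2 * x = x₃ at *
    obtain ⟨X₃, p₃, s₃⟩ := key n₃ k₃
    rw [p₁, p₃] at G
    have D1 : X₃ * (4 * (X₁ * (X₁ ^ 2 + 6 * X₁ - 3))) = (X₁ ^ 2 + 3) ^ 2 := by
      apply mul_left_cancel₀ (pow_ne_zero 4 hl)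
      linear_combination G
    have := finish h2 h3 r₁ r₁ r₃ rep_zero (by
      simp only [mul_zero, zero_add, mul_one, one_mul]
      apply hinj
      simp only [map_mul, map_add, map_sub, map_ofNat, s₁, s₃]
      linear_combination (algebraMap k[X] (RatFunc k) g₁ ^ 4 *
        algebraMap k[X] (RatFunc k) g₃) * D1) (by ring) (by ring)
    rw [HH_zero] at this
    omega

lemma HH_neg [DecidableEq (RatFunc k)] {R : Gp k} : HH (-R) = HH R := by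
  rcases R with _ | ⟨x, y, h⟩
  · rfl
  · obtain ⟨h', e⟩ := neg_mk h
    rw [e]
    rfl

theorem par : S_PAR := by
  intro k _ _ h2 h3 R₁ R₂
  rcases R₁ with _ | ⟨x₁, y₁, h₁⟩
  · change HH (0 + R₂) + HH (0 - R₂) = 2 * HH (0 : Gp k) + 2 * HH R₂
    rw [zero_add, zero_sub, HH_neg, HH_zero]
    omega
  rcases R₂ with _ | ⟨x₂, y₂, h₂⟩
  · change HH (_ + (0 : Gp k)) + HH (_ - (0 : Gp k)) = 2 * HH _ + 2 * HH (0 : Gp k)
    rw [add_zero, sub_zero, HH_zero]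
    omega
  by_cases hx : x₁ = x₂
  · subst hx
    have hy : y₁ = y₂ ∨ y₁ = -y₂ := by
      have := (eqn h₁).trans (eqn h₂).symm
      exact sq_eq_sq_iff_eq_or_eq_neg.1 this
    rcases hy with rfl | rfl
    · rw [sub_self, case_dbl h2 h3, HH_zero]
      omega
    · obtain ⟨h₂', hneg⟩ := neg_mk h₂
      have e1 : (Affine.Point.some x₁ (-y₂) h₁ : Gp k) = -Affine.Point.some x₁ y₂ h₂ := by
        rw [hneg]
      rw [e1, neg_add_cancel, HH_zero, HH_neg, sub_eq_add_neg, ← neg_add, HH_neg,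
        case_dbl h2 h3]
      omega
  · exact case_ne h2 h3 h₁ h₂ hx

end geo

end Pool.Agent.W570.LL
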